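import Mathlib

/-!
# A graded polynomial Poisson algebra whose log-ozone group is larger than its rank

`P = k[y, u1, u2, u3]` with `{y, u_i} = u_i ^ 2` and `{u_i, u_j} = 0`.
-/

set_option autoImplicit false
set_option linter.all false

namespace Pool.Agent.Results.MP_987c99_al.LozExceedsRank

open MvPolynomial TensorProduct

universe u

/-- A graded polynomial Poisson algebra: a bilinear bracket on `k[x_1, ..., x_n]` that is a Lie bracket
and a biderivation, such that the brackets of the variables are quadratic forms or zero. -/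
structure GradedPoisson (k : Type u) [Field k] (n : ℕ) where
  /-- The Poisson bracket. -/
  br : MvPolynomial (Fin n) k →ₗ[k] MvPolynomial (Fin n) k →ₗ[k] MvPolynomial (Fin n) k
  self : ∀ a, br a a = 0
  jacobi : ∀ a b c, br a (br b c) + br b (br c a) + br c (br a b) = 0
  leibniz : ∀ a b c, br a (b * c) = br a b * c + b * br a c
  graded : ∀ i j, (br (X i) (X j)).IsHomogeneous 2

variable {k : Type u} [Field k] {n : ℕ}

theorem GradedPoisson.anti (B : GradedPoisson k n) (a b : MvPolynomial (Fin n) k) :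
    B.br a b = - B.br b a := by
  have h := B.self (a + b)
  simp only [map_add, LinearMap.add_apply, B.self, zero_add, add_zero] at h
  exact eq_neg_of_add_eq_zero_right h

/-- The Poisson centre. -/
noncomputable def GradedPoisson.center (B : GradedPoisson k n) : Subalgebra k (MvPolynomial (Fin n) k) where
  carrier := {z | ∀ a, B.br z a = 0}
  mul_mem' := by
    intro z w hz hw a
    rw [B.anti, B.leibniz, B.anti a z, B.anti a w, hz, hw]; simp
  add_mem' := by
    intro z w hz hw a
    rw [map_add, LinearMap.add_apply, hz, hw, add_zero]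
  algebraMap_mem' := by
    intro r a
    have h1 : B.br a 1 = 0 := by
      have := B.leibniz a 1 1
      rw [mul_one, mul_one, one_mul] at this
      exact left_eq_add.1 this
    rw [Algebra.algebraMap_eq_smul_one, map_smul, LinearMap.smul_apply, B.anti, h1, neg_zero,
      smul_zero]

/-- The log-ozone group: the additive group of derivations generated by the `δ` for which there is a
nonzero `f` with `f δ(a) = {a, f}` for all `a`, that is, by the log-ozone derivations `f⁻¹ {-, f}` of
the nonzero Poisson normal elements `f`. -/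
noncomputable def GradedPoisson.loz (B : GradedPoisson k n) :
    AddSubgroup (Derivation k (MvPolynomial (Fin n) k) (MvPolynomial (Fin n) k)) :=
  AddSubgroup.closure {δ | ∃ f, f ≠ 0 ∧ ∀ a, f * δ a = B.br a f}

/-- The rank of the polynomial ring over the Poisson centre, the dimension of the tensor product with
the field of fractions of the centre. -/
noncomputable def GradedPoisson.rank (B : GradedPoisson k n) : Cardinal.{u} :=
  Module.rank (FractionRing B.center) (FractionRing B.center ⊗[B.center] MvPolynomial (Fin n) k)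

/-! ### The example -/

/-- The derivation `∑ u_i ^ 2 ∂_{u_i}`. -/
noncomputable def DD (k : Type u) [Field k] :
    Derivation k (MvPolynomial (Fin 4) k) (MvPolynomial (Fin 4) k) :=
  mkDerivation k (fun i => if i = 0 then 0 else X i ^ 2)

theorem DD_zero : DD k (X 0) = 0 := by simp [DD]

theorem DD_X {i : Fin 4} (h : i ≠ 0) : DD k (X i) = X i ^ 2 := by simp [DD, h]

theorem DD_comm (f : MvPolynomial (Fin 4) k) : DD k (pderiv 0 f) = pderiv 0 (DD k f) := by
  have h : ⁅DD k, (pderiv 0 : Derivation k (MvPolynomial (Fin 4) k) (MvPolynomial (Fin 4) k))⁆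
      = 0 := by
    apply derivation_ext
    intro i
    rw [Derivation.commutator_apply]
    by_cases h : i = 0
    · subst h; simp [DD_zero]
    · rw [DD_X h, pderiv_X_of_ne h]
      simp [pderiv_X_of_ne h]
  have h1 := congrArg (fun D : Derivation k (MvPolynomial (Fin 4) k) _ => D f) h
  exact sub_eq_zero.1 h1

/-- The Poisson algebra. -/
noncomputable def ex (k : Type u) [Field k] : GradedPoisson k 4 where
  br := LinearMap.mk₂ k (fun f g => pderiv 0 f * DD k g - DD k f * pderiv 0 g)
    (fun f f' g => by simp only [map_add]; ring)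
    (fun c f g => by simp only [Derivation.map_smul, smul_mul_assoc, smul_sub])
    (fun f g g' => by simp only [map_add]; ring)
    (fun c f g => by simp only [Derivation.map_smul, mul_smul_comm, smul_sub])
  self f := by simp only [LinearMap.mk₂_apply]; ring
  jacobi f g h := by
    simp only [LinearMap.mk₂_apply, map_sub, Derivation.leibniz, DD_comm, smul_eq_mul]; ring
  leibniz f g h := by
    simp only [LinearMap.mk₂_apply, Derivation.leibniz, smul_eq_mul]; ring
  graded i j := by
    simp only [LinearMap.mk₂_apply]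
    have hd : ∀ i : Fin 4, (pderiv 0 (X i : MvPolynomial (Fin 4) k)).IsHomogeneous 0 := by
      intro i
      by_cases h : i = 0
      · subst h; rw [pderiv_X_self]; exact isHomogeneous_one _ _
      · rw [pderiv_X_of_ne h]; exact isHomogeneous_zero _ _ _
    have hD : ∀ i : Fin 4, (DD k (X i)).IsHomogeneous 2 := by
      intro i
      by_cases h : i = 0
      · subst h; rw [DD_zero]; exact isHomogeneous_zero _ _ _
      · rw [DD_X h]; exact isHomogeneous_X_pow _ _
    exact ((hd i).mul (hD j)).sub (by simpa using (hD i).mul (hd j))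

theorem ex_br (f g : MvPolynomial (Fin 4) k) :
    (ex k).br f g = pderiv 0 f * DD k g - DD k f * pderiv 0 g := rfl

/-- The derivation `u_i ∂_y`. -/
theorem mem_loz {i : Fin 4} (h : i ≠ 0) : (X i : MvPolynomial (Fin 4) k) • pderiv 0 ∈ (ex k).loz := by
  apply AddSubgroup.subset_closure
  refine ⟨X i, X_ne_zero i, fun a => ?_⟩
  rw [ex_br, DD_X h, pderiv_X_of_ne h]
  simp only [Derivation.smul_apply, smul_eq_mul]
  ring

theorem comb_apply (m : Fin 3 → ℕ) :
    (∑ i : Fin 3, m i • ((X i.succ : MvPolynomial (Fin 4) k) • pderiv 0) :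
      Derivation k (MvPolynomial (Fin 4) k) (MvPolynomial (Fin 4) k)) (X 0)
      = ∑ i : Fin 3, C (m i : k) * (X i.succ : MvPolynomial (Fin 4) k) := by
  simp only [Fin.sum_univ_three, Derivation.add_apply, Derivation.smul_apply, pderiv_X_self,
    smul_eq_mul, mul_one, nsmul_eq_mul, map_natCast]

theorem comb_coeff (m : Fin 3 → ℕ) (j : Fin 3) :
    coeff (Finsupp.single j.succ 1)
      (∑ i : Fin 3, C (m i : k) * (X i.succ : MvPolynomial (Fin 4) k)) = (m j : k) := by
  rw [coeff_sum, Finset.sum_eq_single j]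
  · rw [coeff_C_mul, coeff_X', if_pos rfl, mul_one]
  · intro i _ hi
    rw [coeff_C_mul, coeff_X', if_neg, mul_zero]
    intro h
    apply hi
    have := (Finsupp.single_left_inj (one_ne_zero)).1 h
    exact Fin.succ_injective _ this
  · intro h; exact absurd (Finset.mem_univ _) h

theorem card_loz (p : ℕ) [Fact p.Prime] [CharP k p] :
    ((p ^ 3 : ℕ) : Cardinal.{u}) ≤ Cardinal.mk (ex k).loz := by
  let φ : (Fin 3 → ZMod p) → (ex k).loz := fun c =>
    ⟨∑ i : Fin 3, (c i).val • ((X i.succ : MvPolynomial (Fin 4) k) • pderiv 0),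
      AddSubgroup.sum_mem _ fun i _ => AddSubgroup.nsmul_mem _ (mem_loz (Fin.succ_ne_zero i)) _⟩
  have hφ : Function.Injective φ := by
    intro c c' h
    have h1 : (φ c).1 (X 0) = (φ c').1 (X 0) := by rw [h]
    funext i
    have h2 : ∀ c : Fin 3 → ZMod p, coeff (Finsupp.single i.succ 1) ((φ c).1 (X 0)) =
        ((c i).val : k) := by
      intro c
      exact (congrArg _ (comb_apply fun i => (c i).val)).trans (comb_coeff (fun i => (c i).val) i)
    have h4 : ((c i).val : k) = ((c' i).val : k) := by rw [← h2, ← h2, h1]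
    have h5 := (CharP.cast_eq_iff_mod_eq k p).1 h4
    rw [Nat.mod_eq_of_lt (ZMod.val_lt _), Nat.mod_eq_of_lt (ZMod.val_lt _)] at h5
    exact ZMod.val_injective p h5
  have h6 := Cardinal.mk_le_of_injective (f := fun c : ULift.{u} (Fin 3 → ZMod p) => φ c.down)
    (fun a b h => ULift.ext _ _ (hφ h))
  refine le_trans (le_of_eq ?_) h6
  rw [Cardinal.mk_uLift]
  simp only [Cardinal.mk_fintype, Cardinal.lift_natCast, Fintype.card_fun, ZMod.card,
    Fintype.card_fin]

/-! ### The rank -/

theorem mem_center_of {z : MvPolynomial (Fin 4) k} (h0 : pderiv 0 z = 0) (h1 : DD k z = 0) :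
    z ∈ (ex k).center := by
  intro a
  rw [ex_br, h0, h1]; ring

section
variable (p : ℕ) [Fact p.Prime] [CharP k p]

theorem der_pow_char (D : Derivation k (MvPolynomial (Fin 4) k) (MvPolynomial (Fin 4) k))
    (f : MvPolynomial (Fin 4) k) : D (f ^ p) = 0 := by
  rw [Derivation.leibniz_pow, nsmul_eq_mul, CharP.cast_eq_zero, zero_mul]

theorem pow_mem (f : MvPolynomial (Fin 4) k) : f ^ p ∈ (ex k).center :=
  mem_center_of (der_pow_char p _ f) (der_pow_char p _ f)

theorem DD_pow {i : Fin 4} (h : i ≠ 0) : DD k (X i ^ (p - 1)) = - X i ^ p := by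
  have hp := (Fact.out : p.Prime).two_le
  obtain ⟨m, rfl⟩ : ∃ m, p = m + 2 := ⟨p - 2, by omega⟩
  have h1 : ((m + 1 : ℕ) : MvPolynomial (Fin 4) k) = -1 := by
    have := CharP.cast_eq_zero (MvPolynomial (Fin 4) k) (m + 2)
    push_cast at this ⊢
    linear_combination this
  rw [Derivation.leibniz_pow, DD_X h, show m + 2 - 1 = m + 1 from rfl, nsmul_eq_mul, h1,
    show m + 1 - 1 = m from rfl, smul_eq_mul]
  ring

theorem pd_pow {i : Fin 4} (h : i ≠ 0) (m : ℕ) :
    pderiv 0 ((X i : MvPolynomial (Fin 4) k) ^ m) = 0 := by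
  rw [Derivation.leibniz_pow, pderiv_X_of_ne h]; simp

theorem c_mem {i : Fin 4} (h : i ≠ 0) :
    (X 1 : MvPolynomial (Fin 4) k) ^ p * X i ^ (p - 1) - X 1 ^ (p - 1) * X i ^ p
      ∈ (ex k).center := by
  have h1 : (1 : Fin 4) ≠ 0 := by decide
  apply mem_center_of
  · rw [map_sub, Derivation.leibniz, Derivation.leibniz, pd_pow h, pd_pow h, pd_pow h1, pd_pow h1]
    simp
  · rw [map_sub, Derivation.leibniz, Derivation.leibniz, der_pow_char p, der_pow_char p,
      DD_pow p h, DD_pow p h1]
    simp only [smul_eq_mul]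
    ring

variable {Q : Type*} {A : Type u} [Field Q] [CommRing A] [Algebra Q A]

include p

theorem adjoin_top (e : MvPolynomial (Fin 4) k →+* A)
    (he : ∀ z ∈ (ex k).center, ∃ q : Q, e z = algebraMap Q A q ∧ (z ≠ 0 → q ≠ 0))
    (f : MvPolynomial (Fin 4) k) : e f ∈ Algebra.adjoin Q {e (X 1), e (X 0)} := by
  set S := Algebra.adjoin Q {e (X 1), e (X 0)} with hS
  have hz : ∀ z ∈ (ex k).center, e z ∈ S := by
    intro z hz
    obtain ⟨q, hq, -⟩ := he z hz
    rw [hq]
    exact S.algebraMap_mem q
  have hinv : ∀ z ∈ (ex k).center, z ≠ 0 → ∀ a, e z * a ∈ S → a ∈ S := by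
    intro z hz h0 a ha
    obtain ⟨q, hq, hq0⟩ := he z hz
    have : a = q⁻¹ • (e z * a) := by
      rw [hq, Algebra.smul_def, ← mul_assoc, ← map_mul, inv_mul_cancel₀ (hq0 h0), map_one, one_mul]
    rw [this]
    exact S.smul_mem ha _
  have h0 : e (X 0) ∈ S := Algebra.subset_adjoin (by simp)
  have h1 : e (X 1) ∈ S := Algebra.subset_adjoin (by simp)
  have hi : ∀ i : Fin 4, e (X i) ∈ S := by
    intro i
    by_cases h : i = 0
    · subst h; exact h0
    have h2 : e (X i) ^ (p - 1) ∈ S := by
      apply hinv _ (pow_mem p (X 1)) (pow_ne_zero _ (X_ne_zero _))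
      have h3 : e (X 1 ^ p) * e (X i) ^ (p - 1) =
          e (X 1 ^ p * X i ^ (p - 1) - X 1 ^ (p - 1) * X i ^ p) + e (X 1) ^ (p - 1) * e (X i ^ p) := by
        simp only [map_sub, map_mul, map_pow]; ring
      rw [h3]
      exact S.add_mem (hz _ (c_mem p h)) (S.mul_mem (S.pow_mem h1 _) (hz _ (pow_mem p _)))
    have hp := (Fact.out : p.Prime).two_le
    obtain ⟨m, rfl⟩ : ∃ m, p = m + 2 := ⟨p - 2, by omega⟩
    apply hinv _ ((ex k).center.pow_mem (pow_mem (m + 2) (X i)) m)
      (pow_ne_zero _ (pow_ne_zero _ (X_ne_zero _)))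
    have h4 : e ((X i ^ (m + 2)) ^ m) * e (X i) = (e (X i) ^ (m + 2 - 1)) ^ (m + 1) := by
      rw [show m + 2 - 1 = m + 1 from rfl]
      simp only [map_pow]; ring
    rw [h4]
    exact S.pow_mem h2 _
  induction f using MvPolynomial.induction_on with
  | C a => exact hz _ ((ex k).center.algebraMap_mem a)
  | add f g hf hg => rw [map_add]; exact S.add_mem hf hg
  | mul_X f i hf => rw [map_mul]; exact S.mul_mem hf (hi i)

theorem rank_le_aux (e : MvPolynomial (Fin 4) k →+* A)
    (he : ∀ z ∈ (ex k).center, ∃ q : Q, e z = algebraMap Q A q ∧ (z ≠ 0 → q ≠ 0))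
    (hA : Submodule.span Q (Set.range e) = ⊤) : Module.rank Q A ≤ ((p ^ 2 : ℕ) : Cardinal) := by
  let g : Fin p × Fin p → A := fun ab => e (X 1) ^ (ab.1 : ℕ) * e (X 0) ^ (ab.2 : ℕ)
  have hp := (Fact.out : p.Prime).pos
  have h1 : ∀ a b : ℕ, e (X 1) ^ a * e (X 0) ^ b ∈ Submodule.span Q (Set.range g) := by
    intro a b
    obtain ⟨q, hq, -⟩ := he _ ((ex k).center.pow_mem (pow_mem p (X 1)) (a / p))
    obtain ⟨r, hr, -⟩ := he _ ((ex k).center.pow_mem (pow_mem p (X 0)) (b / p))
    have : e (X 1) ^ a * e (X 0) ^ b = (q * r) • g (⟨a % p, Nat.mod_lt _ hp⟩, ⟨b % p, Nat.mod_lt _ hp⟩) := by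
      rw [Algebra.smul_def, map_mul, ← hq, ← hr]
      simp only [g, map_pow]
      conv_lhs => rw [← Nat.div_add_mod a p, ← Nat.div_add_mod b p]
      ring
    rw [this]
    exact Submodule.smul_mem _ _ (Submodule.subset_span ⟨_, rfl⟩)
  have h2 : Submodule.span Q (Set.range g) = ⊤ := by
    rw [eq_top_iff, ← hA, Submodule.span_le]
    rintro _ ⟨f, rfl⟩
    have h3 := adjoin_top p e he f
    rw [← Subalgebra.mem_toSubmodule, Algebra.adjoin_eq_span] at h3
    refine Submodule.span_le.2 ?_ h3
    intro x hx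
    have : ∃ a b : ℕ, x = e (X 1) ^ a * e (X 0) ^ b := by
      induction hx using Submonoid.closure_induction with
      | mem x hx =>
        rcases hx with rfl | rfl
        · exact ⟨1, 0, by simp⟩
        · exact ⟨0, 1, by simp⟩
      | one => exact ⟨0, 0, by simp⟩
      | mul x y _ _ hx hy =>
        obtain ⟨a, b, rfl⟩ := hx
        obtain ⟨c, d, rfl⟩ := hy
        exact ⟨a + c, b + d, by ring⟩
    obtain ⟨a, b, rfl⟩ := this
    exact h1 a b
  classical
  have h4 : Set.range g = ((Finset.univ.image g : Finset A) : Set A) := by simp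
  rw [← rank_top, ← h2, h4]
  refine (rank_span_finset_le _).trans ?_
  have h5 : (Finset.univ.image g).card ≤ p ^ 2 := by
    refine Finset.card_image_le.trans ?_
    simp [pow_two]
  exact_mod_cast h5

end

theorem tensor_aux (Z : Type u) (P : Type u) [CommRing Z] [IsDomain Z] [CommRing P] [Algebra Z P] :
    ∃ e : P →+* FractionRing Z ⊗[Z] P,
      (∀ z, e (algebraMap Z P z) = algebraMap (FractionRing Z) _ (algebraMap Z (FractionRing Z) z)) ∧
      Submodule.span (FractionRing Z) (Set.range e) = ⊤ := by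
  refine ⟨(Algebra.TensorProduct.includeRight : P →ₐ[Z] FractionRing Z ⊗[Z] P).toRingHom,
    fun z => ?_, ?_⟩
  · rw [← IsScalarTower.algebraMap_apply]
    exact (Algebra.TensorProduct.includeRight : P →ₐ[Z] FractionRing Z ⊗[Z] P).commutes z
  · rw [eq_top_iff]
    rintro x -
    induction x using TensorProduct.induction_on with
    | zero => exact Submodule.zero_mem _
    | tmul q f =>
      have : q ⊗ₜ[Z] f = q • ((1 : FractionRing Z) ⊗ₜ[Z] f) := by
        rw [TensorProduct.smul_tmul', smul_eq_mul, mul_one]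
      rw [this]
      exact Submodule.smul_mem _ _ (Submodule.subset_span ⟨f, rfl⟩)
    | add x y hx hy => exact Submodule.add_mem _ hx hy

theorem rank_le (p : ℕ) [Fact p.Prime] [CharP k p] : (ex k).rank ≤ ((p ^ 2 : ℕ) : Cardinal) := by
  obtain ⟨e, h1, h2⟩ := tensor_aux (ex k).center (MvPolynomial (Fin 4) k)
  refine rank_le_aux p e ?_ h2
  intro z hz
  refine ⟨_, h1 ⟨z, hz⟩, fun h0 h3 => ?_⟩
  rw [FaithfulSMul.algebraMap_eq_zero_iff] at h3
  exact h0 (congrArg Subtype.val h3)

/-- The main result. -/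
theorem result : ∀ (p : ℕ), p.Prime → ∀ (k : Type u) [Field k] [CharP k p],
    ∃ B : GradedPoisson k 4, B.rank < Cardinal.mk B.loz := by
  intro p hp k _ _
  haveI : Fact p.Prime := ⟨hp⟩
  refine ⟨ex k, (rank_le p).trans_lt (lt_of_lt_of_le ?_ (card_loz p))⟩
  exact_mod_cast Nat.pow_lt_pow_right hp.one_lt (by norm_num)

end Pool.Agent.Results.MP_987c99_al.LozExceedsRank
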